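import Pool.Agent.Lib.MP_17ab9e_co.Bridge

/-!
A partial spread bent function of type `PS⁻` in twelve variables which is not weakly normal
(and hence not normal either).

The function is `f(x, y) = h(x^41 * y)` for `x ≠ 0` and `f(0, y) = [y ≠ 0]`, where `x, y` run over
the field with `64` elements and `h` is the indicator function of a set of `31` elements. The
thirty two subspaces are the line `x = 0`, the line `y = 0` and thirty further subspaces over the
field with `8` elements, which form orbits of lengths `3, 9, 9, 9` under the maps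
`(x, y) ↦ (t x, t^22 y)`. That `f` is affine on no flat of dimension six is shown by a search
which is carried out by the kernel (a flat on which `f` is affine gives a flat of dimension six
in the graph of `f`, a set of `4096` points in dimension thirteen).
-/

namespace Pool.Agent.Results.MP_17ab9e_co.NotWeaklyNormal

-- so that subspaces carry the usual module structure `Submodule.module`
attribute [-instance] AddSubgroupClass.instZModModule

/-- `f` belongs to the class `PS⁻` in `2k` variables: there are `2^(k-1)` linear subspaces of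
dimension `k` which intersect pairwise trivially, and `f` takes the value `1` exactly on the
nonzero vectors of their union. -/
def IsPSMinus (k : ℕ) (f : (Fin (2 * k) → ZMod 2) → ZMod 2) : Prop :=
  ∃ E : Fin (2 ^ (k - 1)) → Submodule (ZMod 2) (Fin (2 * k) → ZMod 2),
    (∀ i, Module.finrank (ZMod 2) (E i) = k) ∧
    (∀ i j, i ≠ j → E i ⊓ E j = ⊥) ∧
    ∀ x, f x = 1 ↔ x ≠ 0 ∧ ∃ i, x ∈ E i

/-- `f` is weakly normal: on some flat `c + V` with `V` of dimension `k`, the function `f` agrees
with an affine function `x ↦ ⟨a, x⟩ + b`. -/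
def IsWeaklyNormal (k : ℕ) (f : (Fin (2 * k) → ZMod 2) → ZMod 2) : Prop :=
  ∃ (V : Submodule (ZMod 2) (Fin (2 * k) → ZMod 2)) (c a : Fin (2 * k) → ZMod 2) (b : ZMod 2),
    Module.finrank (ZMod 2) V = k ∧ ∀ v ∈ V, f (c + v) = (∑ i, a i * (c + v) i) + b

/-- There is a function of class `PS⁻` in twelve variables which is not weakly normal. -/
theorem result : ∃ f : (Fin (2 * 6) → ZMod 2) → ZMod 2, IsPSMinus 6 f ∧ ¬ IsWeaklyNormal 6 f := by
  refine ⟨Pool.Agent.Lib.MP_17ab9e_co.fn, ⟨Pool.Agent.Lib.MP_17ab9e_co.E, ?_, ?_, ?_⟩, ?_⟩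
  · exact Pool.Agent.Lib.MP_17ab9e_co.finrank_E
  · exact Pool.Agent.Lib.MP_17ab9e_co.E_inf
  · exact Pool.Agent.Lib.MP_17ab9e_co.fn_eq_one_iff
  · rintro ⟨V, c, a, b, hV, hf⟩
    exact Pool.Agent.Lib.MP_17ab9e_co.not_affine V c a b hV hf

end Pool.Agent.Results.MP_17ab9e_co.NotWeaklyNormal
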